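import Mathlib
import Pool.Agent.H1.Coup

namespace Pool.Agent.Results.MP_fe4852_pr.Optimal

open MeasureTheory Finset Filter Topology

universe u

/-- Total variation distance. -/
noncomputable def dTV (μ ν : Measure ℝ) : ℝ :=
  sSup {t | ∃ A, MeasurableSet A ∧ t = |μ.real A - ν.real A|}

/-- Every finite collection of laws on `ℝ` has a coupling in which any two members disagree with
probability at most `f` of their total variation distance. -/
def IsDisagreementBound (f : ℝ → ℝ) : Prop :=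
  ∀ (ι : Type) [Finite ι] (μ : ι → Measure ℝ), (∀ i, IsProbabilityMeasure (μ i)) →
    ∃ (Ω : Type u) (_ : MeasurableSpace Ω) (P : Measure Ω) (X : ι → Ω → ℝ),
      IsProbabilityMeasure P ∧ (∀ i, Measurable (X i)) ∧ (∀ i, P.map (X i) = μ i) ∧
      ∀ i j, P.real {ω | X i ω ≠ X j ω} ≤ f (dTV (μ i) (μ j))

variable {W : Type} [Fintype W]

noncomputable def law (e w : W → ℝ) : Measure ℝ := ∑ z, ENNReal.ofReal (w z) • Measure.dirac (e z)

open Classical in
theorem law_real (e w : W → ℝ) (hw : ∀ z, 0 ≤ w z) (A : Set ℝ) :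
    (law e w).real A = ∑ z, if e z ∈ A then w z else 0 := by
  unfold law
  rw [measureReal_def, Measure.finsetSum_apply, ENNReal.toReal_sum]
  · refine Finset.sum_congr rfl fun z _ => ?_
    by_cases h : e z ∈ A <;> simp [h, hw z]
  · intro z _
    by_cases h : e z ∈ A <;> simp [h]

theorem law_prob (e w : W → ℝ) (hw : ∀ z, 0 ≤ w z) (h1 : ∑ z, w z = 1) :
    IsProbabilityMeasure (law e w) := by
  refine ⟨?_⟩
  unfold law
  rw [Measure.finsetSum_apply]
  simp only [Measure.smul_apply, measure_univ, smul_eq_mul, mul_one]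
  rw [← ENNReal.ofReal_sum_of_nonneg fun z _ => hw z, h1, ENNReal.ofReal_one]

theorem law_ae (e w : W → ℝ) : ∀ᵐ y ∂law e w, ∃ z, w z ≠ 0 ∧ y = e z := by
  rw [ae_iff]
  unfold law
  rw [Measure.finsetSum_apply]
  refine Finset.sum_eq_zero fun z _ => ?_
  by_cases h : w z = 0
  · simp [h]
  · rw [Measure.smul_apply, Measure.dirac_apply, Set.indicator_of_notMem, smul_zero]
    exact fun h' => h' ⟨z, h, rfl⟩

theorem law_tv (e w w' : W → ℝ) (he : Function.Injective e) (hw : ∀ z, 0 ≤ w z)
    (hw' : ∀ z, 0 ≤ w' z) (h1 : ∑ z, w z = 1) (h1' : ∑ z, w' z = 1) :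
    dTV (law e w) (law e w') = 1 - ∑ z, min (w z) (w' z) := by
  classical
  have k1 : 1 - ∑ z, min (w z) (w' z) = ∑ z, (w z - min (w z) (w' z)) := by
    rw [Finset.sum_sub_distrib, h1]
  have k2 : 1 - ∑ z, min (w z) (w' z) = ∑ z, (w' z - min (w z) (w' z)) := by
    rw [Finset.sum_sub_distrib, h1']
  refine IsGreatest.csSup_eq ⟨⟨e '' {z | w' z ≤ w z}, (Set.toFinite _).measurableSet, ?_⟩, ?_⟩
  · rw [law_real _ _ hw, law_real _ _ hw', ← Finset.sum_sub_distrib]
    have : ∀ z, ((if e z ∈ e '' {z | w' z ≤ w z} then w z else 0) -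
        (if e z ∈ e '' {z | w' z ≤ w z} then w' z else 0)) = w z - min (w z) (w' z) := by
      intro z
      simp only [he.mem_set_image, Set.mem_setOf_eq]
      split_ifs with h
      · rw [min_eq_right h]
      · rw [min_eq_left (not_le.1 h).le]; simp
    simp only [this]
    rw [abs_of_nonneg (Finset.sum_nonneg fun z _ => sub_nonneg.2 (min_le_left _ _)), k1]
  · rintro t ⟨A, -, rfl⟩
    rw [law_real _ _ hw, law_real _ _ hw', abs_le]
    constructor
    · rw [neg_le, neg_sub, ← Finset.sum_sub_distrib, k2]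
      refine Finset.sum_le_sum fun z _ => ?_
      split_ifs
      · linarith [min_le_left (w z) (w' z)]
      · linarith [min_le_right (w z) (w' z)]
    · rw [← Finset.sum_sub_distrib, k1]
      refine Finset.sum_le_sum fun z _ => ?_
      split_ifs
      · linarith [min_le_right (w z) (w' z)]
      · linarith [min_le_left (w z) (w' z)]

theorem main (f : ℝ → ℝ) (hf : IsDisagreementBound.{u} f) (k q : ℕ) (hk : 1 ≤ k)
    (hkq : k + 1 ≤ q) (η : ℝ) (h0 : 0 ≤ η) (h1 : η ≤ 1) :
    1 - f ((1 - η) * (1 - (k + 1) / q)) ≤ η + ((k + 1) / q) ^ 2 / (1 - (1 - k / q : ℝ) ^ 2) := by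
  classical
  have hq : (0 : ℝ) < q := by exact_mod_cast (by omega : 0 < q)
  obtain ⟨e, he⟩ : ∃ e : Option (Fin q × Fin q) → ℝ, Function.Injective e :=
    ⟨fun z => ((Fintype.equivFin _ z : ℕ) : ℝ), fun a b h =>
      (Fintype.equivFin _).injective (Fin.ext (Nat.cast_injective (R := ℝ) h))⟩
  set κ : ℝ := (1 - η) / ((k + 1) * q) with hκ
  have hκ0 : 0 ≤ κ := div_nonneg (by linarith) (by positivity)
  let S : Finset (Fin q) ⊕ Finset (Fin q) → Finset (Fin q) := Sum.elim id id
  let pr : Finset (Fin q) ⊕ Finset (Fin q) → Fin q × Fin q → Fin q :=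
    Sum.elim (fun _ => Prod.fst) (fun _ => Prod.snd)
  let w : Finset (Fin q) ⊕ Finset (Fin q) → Option (Fin q × Fin q) → ℝ := fun i z =>
    match z with
    | none => if (S i).card = k + 1 then η else 1
    | some y => if (S i).card = k + 1 ∧ pr i y ∈ S i then κ else 0
  have hw0 : ∀ i z, 0 ≤ w i z := fun i z => by
    cases z <;> simp only [w] <;> split_ifs <;> first | assumption | norm_num
  have hw1 : ∀ i, ∑ z, w i z = 1 := fun i => by
    rw [Fintype.sum_option]
    by_cases h : (S i).card = k + 1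
    · simp only [w, h, if_true, true_and]
      have : ∑ y : Fin q × Fin q, (if pr i y ∈ S i then κ else 0) = (k + 1) * q * κ := by
        rcases i with R | R
        · have h' : R.card = k + 1 := h
          show ∑ y : Fin q × Fin q, (if y.1 ∈ R then κ else 0) = _
          rw [Fintype.sum_prod_type_right]
          simp [Finset.sum_ite_mem, h']
          ring
        · have h' : R.card = k + 1 := h
          show ∑ y : Fin q × Fin q, (if y.2 ∈ R then κ else 0) = _
          rw [Fintype.sum_prod_type]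
          simp [Finset.sum_ite_mem, h']
          ring
      rw [this, hκ]
      field_simp
      ring
    · simp [w, h]
  obtain ⟨Ω, _, P, X, hP, hX, hlaw, hd⟩ := hf _ (fun i => law e (w i))
    fun i => law_prob e _ (hw0 i) (hw1 i)
  set F := (univ : Finset (Fin q)).powersetCard (k + 1) with hF
  have hFc : ∀ R ∈ F, R.card = k + 1 := fun R hR => (mem_powersetCard.1 hR).2
  have htv : ∀ R ∈ F, ∀ C ∈ F, dTV (law e (w (.inl R))) (law e (w (.inr C))) =
      (1 - η) * (1 - (k + 1) / q) := by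
    intro R hR C hC
    rw [law_tv e _ _ he (hw0 _) (hw0 _) (hw1 _) (hw1 _), Fintype.sum_option]
    have : ∀ y : Fin q × Fin q, min (w (.inl R) (some y)) (w (.inr C) (some y)) =
        if y.1 ∈ R then (if y.2 ∈ C then κ else 0) else 0 := fun y => by
      simp only [w, S, pr, Sum.elim_inl, Sum.elim_inr, id, hFc R hR, hFc C hC, true_and]
      split_ifs <;> simp [hκ0]
    simp only [this]
    rw [Fintype.sum_prod_type]
    simp only [w, S, Sum.elim_inl, Sum.elim_inr, id, hFc R hR, hFc C hC, if_true, min_self,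
      Finset.sum_ite_irrel, Finset.sum_ite_mem, Finset.univ_inter, Finset.sum_const,
      nsmul_eq_mul, smul_zero]
    rw [hκ]
    push_cast
    field_simp
    ring
  have hae : ∀ᵐ ω ∂P, ∀ i, ∃ z, w i z ≠ 0 ∧ X i ω = e z :=
    ae_all_iff.2 fun i => ae_of_ae_map (hX i).aemeasurable (by rw [hlaw i]; exact law_ae e _)
  have hm1 : ∀ i j, MeasurableSet {ω | X i ω = X j ω} := fun i j =>
    measurableSet_eq_fun (hX i) (hX j)
  have hm2 : ∀ i, MeasurableSet {ω | X i ω = e none} := fun i =>
    measurableSet_eq_fun (hX i) measurable_const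
  set s : ℝ := ((q - 1).choose k : ℝ) ^ 2 / (1 - (1 - k / q : ℝ) ^ 2) with hs
  have hint : ∀ A : Set Ω, MeasurableSet A → Integrable (A.indicator (1 : Ω → ℝ)) P :=
    fun A hA => (integrable_const (1 : ℝ)).indicator hA
  have key : ∫ ω, (∑ R ∈ F, ∑ C ∈ F, {ω | X (.inl R) ω = X (.inr C) ω}.indicator 1 ω) ∂P ≤
      ∫ ω, ((∑ R ∈ F, ∑ _C ∈ F, {ω | X (.inl R) ω = e none}.indicator 1 ω) + s) ∂P := by
    refine integral_mono_ae (integrable_finset_sum _ fun R _ => integrable_finset_sum _
      fun C _ => hint _ (hm1 _ _)) ((integrable_finset_sum _ fun R _ => integrable_finset_sum _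
      fun C _ => hint _ (hm2 _)).add (integrable_const _)) ?_
    filter_upwards [hae] with ω hω
    choose z hz hz' using hω
    have := Pool.Agent.H1.Coup.pair_bound (α := Fin q) k hk (by simp; omega)
      (fun R => z (.inl R)) (fun R => z (.inr R)) (fun R _ y hy => by
        have := hz (.inl R)
        rw [hy] at this
        by_contra h
        exact this (if_neg fun h' => h h'.2)) (fun R _ y hy => by
        have := hz (.inr R)
        rw [hy] at this
        by_contra h
        exact this (if_neg fun h' => h h'.2))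
    rw [Fintype.card_fin] at this
    simpa only [Set.indicator_apply, Set.mem_setOf_eq, hz', he.eq_iff, Pi.one_apply] using this
  rw [integral_add (integrable_finset_sum _ fun R _ => integrable_finset_sum _
      fun C _ => hint _ (hm2 _)) (integrable_const _),
    integral_finset_sum _ fun R _ => integrable_finset_sum _ fun C _ => hint _ (hm1 _ _),
    integral_finset_sum _ fun R _ => integrable_finset_sum _ fun C _ => hint _ (hm2 _)] at key
  have e1 : ∀ R ∈ F, ∫ ω, (∑ _C ∈ F, {ω | X (.inl R) ω = e none}.indicator (1 : Ω → ℝ) ω) ∂P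
      = F.card * η := fun R hR => by
    rw [integral_finset_sum _ fun C _ => hint _ (hm2 _), integral_indicator_one (hm2 _),
      Finset.sum_const, nsmul_eq_mul]
    congr 1
    have := map_measureReal_apply (μ := P) (hX (.inl R)) (measurableSet_singleton (e none))
    rw [hlaw, law_real _ _ (hw0 _)] at this
    refine this.symm.trans ?_
    simp [he.eq_iff, w, S, hFc R hR]
  have e2 : ∀ R ∈ F, F.card * (1 - f ((1 - η) * (1 - (k + 1) / q))) ≤
      ∫ ω, (∑ C ∈ F, {ω | X (.inl R) ω = X (.inr C) ω}.indicator (1 : Ω → ℝ) ω) ∂P :=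
    fun R hR => by
    rw [integral_finset_sum _ fun C _ => hint _ (hm1 _ _), ← nsmul_eq_mul, ← Finset.sum_const]
    refine Finset.sum_le_sum fun C hC => ?_
    rw [integral_indicator_one (hm1 _ _)]
    have h2 := hd (.inl R) (.inr C)
    rw [htv R hR C hC] at h2
    have h3 := measureReal_compl (μ := P) (hm1 (.inl R) (.inr C))
    rw [probReal_univ] at h3
    have h4 : P.real {ω | X (.inl R) ω ≠ X (.inr C) ω} =
      P.real {ω | X (.inl R) ω = X (.inr C) ω}ᶜ := rfl
    linarith
  have e3 := (Finset.sum_le_sum e2).trans key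
  rw [Finset.sum_congr rfl e1, Finset.sum_const, Finset.sum_const, nsmul_eq_mul, nsmul_eq_mul,
    integral_const, probReal_univ, one_smul] at e3
  have e4 : (F.card : ℝ) = q.choose (k + 1) := by simp [hF]
  have e5 : (0 : ℝ) < q.choose (k + 1) := by exact_mod_cast Nat.choose_pos hkq
  have e6 : ((q - 1).choose k : ℝ) = (k + 1) / q * q.choose (k + 1) := by
    obtain ⟨p, rfl⟩ : ∃ p, q = p + 1 := ⟨q - 1, by omega⟩
    have := congrArg (Nat.cast : ℕ → ℝ) (Nat.add_one_mul_choose_eq p k)
    rw [Nat.add_sub_cancel]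
    push_cast at this ⊢
    field_simp
    linarith
  rw [e4, hs, e6] at e3
  refine le_of_mul_le_mul_left ?_ (mul_pos e5 e5)
  refine le_trans (le_of_eq (by ring)) (e3.trans (le_of_eq ?_))
  ring

/-- Every disagreement bound is at least `2x / (1 + x)` on `[0, 1]`. -/
theorem result (f : ℝ → ℝ) (hf : IsDisagreementBound.{u} f) :
    ∀ x ∈ Set.Icc (0 : ℝ) 1, 2 * x / (1 + x) ≤ f x := by
  rintro x ⟨hx0, hx1⟩
  rcases hx1.eq_or_lt with rfl | hx1
  · let e : Bool → ℝ := fun b => if b then 1 else 0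
    have he : Function.Injective e := fun a b h => by
      cases a <;> cases b <;> simp [e] at h ⊢
    let w : Bool → Bool → ℝ := fun i z => if z = i then 1 else 0
    have hw0 : ∀ i z, 0 ≤ w i z := fun i z => by simp only [w]; split_ifs <;> norm_num
    have hw1 : ∀ i, ∑ z, w i z = 1 := fun i => by cases i <;> simp [w]
    obtain ⟨Ω, _, P, X, hP, hX, hlaw, hd⟩ := hf _ (fun i => law e (w i))
      fun i => law_prob e _ (hw0 i) (hw1 i)
    have h1 := hd true false
    rw [law_tv e _ _ he (hw0 _) (hw0 _) (hw1 _) (hw1 _)] at h1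
    have hae : ∀ᵐ ω ∂P, ∀ i, ∃ z, w i z ≠ 0 ∧ X i ω = e z :=
      ae_all_iff.2 fun i => ae_of_ae_map (hX i).aemeasurable (by rw [hlaw i]; exact law_ae e _)
    have h2 : P.real {ω | X true ω ≠ X false ω} = P.real Set.univ := by
      refine measureReal_congr ?_
      filter_upwards [hae] with ω hω
      obtain ⟨a, ha, ha'⟩ := hω true
      obtain ⟨b, hb, hb'⟩ := hω false
      refine propext ⟨fun _ => trivial, fun _ => ?_⟩
      show X true ω ≠ X false ω
      rw [ha', hb']
      cases a <;> cases b <;> simp [w, e] at ha hb ⊢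
    rw [h2, probReal_univ] at h1
    norm_num [w] at h1 ⊢
    exact h1
  have hμ : 0 < 1 - x := by linarith
  have t1 : Tendsto (fun q : ℕ => (⌊(1 - x) * q⌋₊ : ℝ) / q) atTop (𝓝 (1 - x)) :=
    (tendsto_nat_floor_mul_div_atTop hμ.le).comp tendsto_natCast_atTop_atTop
  have t2 : Tendsto (fun q : ℕ => (⌊(1 - x) * q⌋₊ : ℝ) / q - 1 / q) atTop (𝓝 (1 - x - 0)) :=
    t1.sub tendsto_one_div_atTop_nhds_zero_nat
  have t0 : ∀ᶠ q : ℕ in atTop, 2 ≤ (1 - x) * q :=
    (tendsto_natCast_atTop_atTop.const_mul_atTop hμ).eventually_ge_atTop 2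
  rcases hx0.eq_or_lt with rfl | hx0
  · obtain ⟨Ω, _, P, X, hP, hX, hlaw, hd⟩ := hf Unit (fun _ => law (fun _ : Unit => 0) fun _ => 1)
      fun _ => law_prob _ _ (fun _ => zero_le_one) (by simp)
    have h1 := hd () ()
    rw [law_tv _ _ _ (fun _ _ _ => rfl) (fun _ => zero_le_one) (fun _ => zero_le_one) (by simp)
      (by simp)] at h1
    simpa using h1
  have t3 : Tendsto (fun q : ℕ => (1 - x / (1 - (⌊(1 - x) * q⌋₊ : ℝ) / q)) +
      ((⌊(1 - x) * q⌋₊ : ℝ) / q) ^ 2 / (1 - (1 - ((⌊(1 - x) * q⌋₊ : ℝ) / q - 1 / q)) ^ 2)) atTop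
      (𝓝 ((1 - x / (1 - (1 - x))) + (1 - x) ^ 2 / (1 - (1 - (1 - x - 0)) ^ 2))) :=
    (tendsto_const_nhds.sub (tendsto_const_nhds.div (tendsto_const_nhds.sub t1)
      (by linarith))).add ((t1.pow 2).div
      (tendsto_const_nhds.sub ((tendsto_const_nhds.sub t2).pow 2)) (by nlinarith))
  have h4 : 1 - f x ≤ _ := ge_of_tendsto t3 (by
    filter_upwards [t0, eventually_gt_atTop 0] with q h1 h2
    have hq : (0 : ℝ) < q := by exact_mod_cast h2
    obtain ⟨k, hk⟩ : ∃ k, ⌊(1 - x) * q⌋₊ = k + 1 := ⟨⌊(1 - x) * q⌋₊ - 1, by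
      have := Nat.le_floor (n := 2) (by exact_mod_cast h1 : ((2 : ℕ) : ℝ) ≤ (1 - x) * q)
      omega⟩
    have h3 : 1 ≤ k := by
      have := Nat.le_floor (n := 2) (by exact_mod_cast h1 : ((2 : ℕ) : ℝ) ≤ (1 - x) * q)
      omega
    have h4 := Nat.floor_le (show 0 ≤ (1 - x) * q by linarith)
    rw [hk] at h4 ⊢
    push_cast at h4 ⊢
    have h5 : ((k : ℝ) + 1) / q ≤ 1 - x := by rwa [div_le_iff₀ hq]
    have h6 : k + 1 ≤ q := by
      have : (k : ℝ) + 1 ≤ q := by nlinarith
      exact_mod_cast this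
    have h7 : 0 < 1 - ((k : ℝ) + 1) / q := by linarith
    have := main f hf k q h3 h6 (1 - x / (1 - ((k : ℝ) + 1) / q))
      (by rw [sub_nonneg, div_le_one h7]; linarith)
      (by have := div_nonneg hx0.le h7.le; linarith)
    rw [sub_sub_cancel, div_mul_cancel₀ _ h7.ne'] at this
    rw [show ((k : ℝ) + 1) / q - 1 / q = k / q by ring]
    exact this)
  have h5 : (1 - x / (1 - (1 - x))) + (1 - x) ^ 2 / (1 - (1 - (1 - x - 0)) ^ 2)
      = 1 - 2 * x / (1 + x) := by
    have : 1 - (1 - (1 - x - 0)) ^ 2 = (1 - x) * (1 + x) := by ring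
    rw [this, sub_sub_cancel]
    field_simp
    ring
  linarith

end Pool.Agent.Results.MP_fe4852_pr.Optimal
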